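import Pool.Agent.Helper91.GU.StD

/-!
# Project GU, module D4
-/

set_option autoImplicit false

namespace Pool.Agent.Helper16.GU

open Polynomial IsLocalRing Pool.Agent.Helper91.GU

universe u

theorem lc_mul_le {L : Type u} [CommRing L] (I J : Ideal L[X]) :
    I.leadingCoeff * J.leadingCoeff ≤ (I * J).leadingCoeff := by
  refine Ideal.mul_le.mpr ?_
  intro a ha b hb
  rw [Ideal.mem_leadingCoeff] at ha hb
  obtain ⟨f, hf, rfl⟩ := ha
  obtain ⟨g, hg, rfl⟩ := hb
  rw [Ideal.mem_leadingCoeff]
  by_cases h : f.leadingCoeff * g.leadingCoeff = 0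
  · exact ⟨0, Submodule.zero_mem _, by simp [h]⟩
  · exact ⟨f * g, Ideal.mul_mem_mul hf hg, leadingCoeff_mul' h⟩

theorem lc_mono {L : Type u} [CommRing L] {I J : Ideal L[X]} (h : I ≤ J) :
    I.leadingCoeff ≤ J.leadingCoeff := by
  intro a ha
  rw [Ideal.mem_leadingCoeff] at ha ⊢
  obtain ⟨f, hf, rfl⟩ := ha
  exact ⟨f, h hf, rfl⟩

theorem exists_prime {L : Type u} [CommRing L] [IsNoetherianRing L] (p : Ideal L) (hp : p.IsPrime)
    (J : Ideal L[X]) (hJ : J.leadingCoeff ≤ p) :
    ∃ P : Ideal L[X], P.IsPrime ∧ J ≤ P ∧ P.leadingCoeff ≤ p := by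
  induction J using WellFoundedGT.induction with
  | ind J ih =>
    by_cases hprime : J.IsPrime
    · exact ⟨J, hprime, le_rfl, hJ⟩
    have hne : J ≠ ⊤ := by
      rintro rfl
      refine hp.ne_top ?_
      rw [Ideal.eq_top_iff_one]
      refine hJ ?_
      rw [Ideal.mem_leadingCoeff]
      exact ⟨1, Submodule.mem_top, by simp⟩
    have hex : ∃ a b : L[X], a * b ∈ J ∧ a ∉ J ∧ b ∉ J := by
      by_contra hcon
      push Not at hcon
      refine hprime ⟨hne, ?_⟩
      intro a b hab
      by_contra hh
      push Not at hh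
      exact hh.2 (hcon a b hab hh.1)
    obtain ⟨a, b, hab, ha, hb⟩ := hex
    have hmul : (J ⊔ Ideal.span {a}) * (J ⊔ Ideal.span {b}) ≤ J := by
      rw [Ideal.sup_mul, Ideal.mul_sup, Ideal.mul_sup]
      refine sup_le (sup_le Ideal.mul_le_right Ideal.mul_le_left) (sup_le Ideal.mul_le_right ?_)
      rw [Ideal.span_singleton_mul_span_singleton]
      exact (Ideal.span_singleton_le_iff_mem _).mpr hab
    have hlc : (J ⊔ Ideal.span {a}).leadingCoeff * (J ⊔ Ideal.span {b}).leadingCoeff ≤ p :=
      (lc_mul_le _ _).trans ((lc_mono hmul).trans hJ)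
    have hlt : ∀ c : L[X], c ∉ J → J < J ⊔ Ideal.span {c} := by
      intro c hc
      refine lt_of_le_of_ne le_sup_left ?_
      intro h
      apply hc
      rw [h]
      exact (le_sup_right : Ideal.span {c} ≤ J ⊔ Ideal.span {c}) (Ideal.mem_span_singleton_self c)
    rcases hp.mul_le.mp hlc with h | h
    · obtain ⟨P, h1, h2, h3⟩ := ih _ (hlt a ha) h
      exact ⟨P, h1, le_sup_left.trans h2, h3⟩
    · obtain ⟨P, h1, h2, h3⟩ := ih _ (hlt b hb) h
      exact ⟨P, h1, le_sup_left.trans h2, h3⟩

theorem height_map_C_le {L : Type u} [CommRing L] [IsNoetherianRing L] (p : Ideal L)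
    [hp : p.IsPrime] : (p.map C).height ≤ p.height := by
  have hP : (p.map (C : L →+* L[X])).IsPrime := inferInstance
  have hcm : (p.map (C : L →+* L[X])).comap C = p := by
    refine le_antisymm ?_ Ideal.le_comap_map
    intro a ha
    rw [Ideal.mem_comap, Ideal.mem_map_C_iff] at ha
    simpa using ha 0
  have : (p.map (C : L →+* L[X])).LiesOver p := ⟨hcm.symm⟩
  have h := Ideal.height_eq_height_add_of_liesOver_of_hasGoingDown p
    (P := p.map (C : L →+* L[X]))
  have h0 : ((p.map (C : L →+* L[X])).map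
      (Ideal.Quotient.mk (p.map (algebraMap L L[X])))).height = 0 := by
    have : (p.map (C : L →+* L[X])).map (Ideal.Quotient.mk (p.map (algebraMap L L[X]))) = ⊥ := by
      rw [Ideal.map_eq_bot_iff_le_ker, Ideal.mk_ker]
      exact le_rfl
    rw [this]
    have : (p.map (algebraMap L L[X])).IsPrime := hP
    simp
  rw [h, h0, add_zero]

theorem exists_lc_notMem {L : Type u} [CommRing L] (P : Ideal L[X]) (q : Ideal L)
    (hq : q = P.comap C) (hne : ¬ P ≤ q.map C) : ∃ f ∈ P, f.leadingCoeff ∉ q := by
  by_contra hcon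
  push Not at hcon
  refine hne ?_
  have key : ∀ (n : ℕ) (f : L[X]), f.natDegree ≤ n → f ∈ P → f ∈ q.map C := by
    intro n
    induction n with
    | zero =>
      intro f hf hfP
      have h1 : f = C f.leadingCoeff := by
        have h2 := eq_C_of_natDegree_le_zero hf
        rw [h2]; simp
      rw [h1]
      exact Ideal.mem_map_of_mem C (hcon f hfP)
    | succ n ih =>
      intro f hf hfP
      have hlead : f.leadingCoeff ∈ q := hcon f hfP
      have hmono : C f.leadingCoeff * X ^ f.natDegree ∈ q.map (C : L →+* L[X]) :=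
        Ideal.mul_mem_right _ _ (Ideal.mem_map_of_mem C hlead)
      have hmP : C f.leadingCoeff * X ^ f.natDegree ∈ P := by
        refine Ideal.mul_mem_right _ _ ?_
        have : f.leadingCoeff ∈ P.comap C := hq ▸ hlead
        exact this
      have herase : f.eraseLead ∈ q.map (C : L →+* L[X]) := by
        refine ih _ ?_ ?_
        · have := eraseLead_natDegree_le f
          omega
        · have h3 : f.eraseLead = f - C f.leadingCoeff * X ^ f.natDegree := by
            rw [eq_sub_iff_add_eq]
            exact eraseLead_add_C_mul_X_pow f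
          rw [h3]
          exact Ideal.sub_mem _ hfP hmP
      rw [← eraseLead_add_C_mul_X_pow f]
      exact Ideal.add_mem _ herase hmono
  intro f hf
  exact key f.natDegree f le_rfl hf

theorem hD4 (hD3 : StD3.{u}) : StD4.{u} := by
  intro L _ _ J t hJ p hp hlc
  obtain ⟨P, hP, hJP, hPp⟩ := exists_prime p hp J hlc
  have ht := hJ P hP hJP
  refine ht.trans ?_
  have := hP
  have := hp
  have hqP : P.comap C ≤ P.leadingCoeff := by
    intro a ha
    rw [Ideal.mem_leadingCoeff]
    exact ⟨C a, ha, by simp⟩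
  have hqp : P.comap C ≤ p := hqP.trans hPp
  by_cases hne : P ≤ (P.comap C).map C
  · have heq : P = (P.comap C).map C := le_antisymm hne Ideal.map_comap_le
    have : (P.comap (C : L →+* L[X])).IsPrime := Ideal.comap_isPrime _ _
    calc P.height = ((P.comap C).map C).height := by rw [← heq]
      _ ≤ (P.comap C).height := height_map_C_le _
      _ ≤ p.height := Ideal.height_mono hqp
  · obtain ⟨f, hfP, hf⟩ := exists_lc_notMem P _ rfl hne
    have : (P.comap (C : L →+* L[X])).IsPrime := Ideal.comap_isPrime _ _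
    have hlt : P.comap C < p := by
      refine lt_of_le_of_ne hqp ?_
      intro h
      apply hf
      rw [h]
      apply hPp
      rw [Ideal.mem_leadingCoeff]
      exact ⟨f, hfP, rfl⟩
    exact (hD3 L P).trans (Ideal.height_add_one_le_of_lt_of_isPrime hlt)

end Pool.Agent.Helper16.GU
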